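import Pool.Agent.H14.IC.TOP

/-!
Module CEL: decomposition into cells, finitely many averages control the square integral.
-/

open MeasureTheory Set Filter Topology Metric
open scoped ENNReal NNReal ContDiff RealInnerProductSpace

namespace Pool.Agent.H14.IC

open Pool.Agent.H94.IC

/-- the open cube number `k` below the height `z` -/
def cub (c : ℝ × ℝ) (z h : ℝ) (k : ℤ) : Set E :=
  {x | |x 0 - c.1| < h / 2 ∧ |x 1 - c.2| < h / 2 ∧ z - (k + 1) * h < x 2 ∧ x 2 < z - k * h}

/-- the closed cube -/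
def ccub (c : ℝ × ℝ) (z h : ℝ) (k : ℤ) : Set E :=
  {x | |x 0 - c.1| ≤ h / 2 ∧ |x 1 - c.2| ≤ h / 2 ∧ z - (k + 1) * h ≤ x 2 ∧ x 2 ≤ z - k * h}

open Classical in
/-- the cell number `k` -/
noncomputable def cel (g : ℝ × ℝ → ℝ) (L : ℝ) (c : ℝ × ℝ) (h : ℝ) (k : ℤ) : Set E :=
  if k = 0 then TopCell g L c h else cub c (g c - L * h) h k

theorem low_eq_cub (g : ℝ × ℝ → ℝ) (L : ℝ) (c : ℝ × ℝ) (h : ℝ) :
    LowCell g L c h = cub c (g c - L * h) h 0 := by
  ext x
  simp only [LowCell, cub, mem_ofPred_eq, Int.cast_zero, zero_add, one_mul, zero_mul, sub_zero]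

theorem norm_le_coords {x y : E} {a b c : ℝ} (h0 : |x 0 - y 0| ≤ a) (h1 : |x 1 - y 1| ≤ b)
    (h2 : |x 2 - y 2| ≤ c) : ‖x - y‖ ≤ a + b + c := by
  have ha := (abs_nonneg _).trans h0
  have hb := (abs_nonneg _).trans h1
  have hc := (abs_nonneg _).trans h2
  rw [EuclideanSpace.norm_eq, Real.sqrt_le_left (by positivity), Fin.sum_univ_three]
  have e0 : ‖(x - y) 0‖ ^ 2 ≤ a ^ 2 := by
    have : ‖(x - y) 0‖ = |x 0 - y 0| := by simp
    rw [this]; exact pow_le_pow_left₀ (abs_nonneg _) h0 2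
  have e1 : ‖(x - y) 1‖ ^ 2 ≤ b ^ 2 := by
    have : ‖(x - y) 1‖ = |x 1 - y 1| := by simp
    rw [this]; exact pow_le_pow_left₀ (abs_nonneg _) h1 2
  have e2 : ‖(x - y) 2‖ ^ 2 ≤ c ^ 2 := by
    have : ‖(x - y) 2‖ = |x 2 - y 2| := by simp
    rw [this]; exact pow_le_pow_left₀ (abs_nonneg _) h2 2
  nlinarith [mul_nonneg ha hb, mul_nonneg ha hc, mul_nonneg hb hc]

theorem abs_coord_le (x y : E) (k : Fin 3) : |x k - y k| ≤ dist x y := by
  rw [dist_eq_norm]
  have h := EuclideanSpace.norm_eq (x - y)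
  have h1 : |x k - y k| = ‖(x - y) k‖ := by simp
  rw [h1, h]
  apply Real.le_sqrt_of_sq_le
  exact Finset.single_le_sum (f := fun i => ‖(x - y) i‖ ^ 2) (fun i _ => sq_nonneg _)
    (Finset.mem_univ k)

/-- the position of the points of a cell -/
theorem cel_pos {g : ℝ × ℝ → ℝ} {L : ℝ≥0} (hg : LipschitzWith L g) {c : ℝ × ℝ} {h : ℝ}
    (hh : 0 < h) {k : ℤ} {x : E} (hx : x ∈ cel g L c h k) :
    |x 0 - c.1| < h / 2 ∧ |x 1 - c.2| < h / 2 ∧ g c - L * h - (k + 1) * h < x 2 ∧
      x 2 < g c - L * h - k * h + 3 / 2 * L * h ∧ (0 ≤ k → x 2 < g (x 0, x 1)) := by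
  have hL : (0:ℝ) ≤ L := L.coe_nonneg
  unfold cel at hx
  split_ifs at hx with hk
  · subst hk
    obtain ⟨h0, h1, h2, h3⟩ := hx
    have h4 := (abs_le.mp (lip_sq hg (c := c) (a := (x 0, x 1)) (h := h) h0.le h1.le)).2
    refine ⟨h0, h1, ?_, ?_, fun _ => h3⟩
    · simpa using h2
    · simp only [Int.cast_zero, zero_mul, sub_zero]
      linarith
  · obtain ⟨h0, h1, h2, h3⟩ := hx
    have h4 := (abs_le.mp (lip_sq hg (c := c) (a := (x 0, x 1)) (h := h) h0.le h1.le)).1
    have h5 : 0 ≤ L * h := by positivity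
    refine ⟨h0, h1, h2, ?_, fun hk0 => ?_⟩
    · linarith
    · have h6 : (0:ℝ) ≤ k := by exact_mod_cast hk0
      have h7 : 0 ≤ (k:ℝ) * h := by positivity
      linarith

theorem isOpen_cub (c : ℝ × ℝ) (z h : ℝ) (k : ℤ) : IsOpen (cub c z h k) := by
  have h0 := continuous_coord 0
  have h1 := continuous_coord 1
  have h2 := continuous_coord 2
  have e : cub c z h k = {x : E | |x 0 - c.1| < h / 2} ∩ ({x : E | |x 1 - c.2| < h / 2} ∩
      ({x : E | z - (k + 1) * h < x 2} ∩ {x : E | x 2 < z - k * h})) := by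
    ext x; simp [cub]
  rw [e]
  refine IsOpen.inter ?_ (IsOpen.inter ?_ (IsOpen.inter ?_ ?_))
  · exact isOpen_lt (h0.sub continuous_const).abs continuous_const
  · exact isOpen_lt (h1.sub continuous_const).abs continuous_const
  · exact isOpen_lt continuous_const h2
  · exact isOpen_lt h2 continuous_const

theorem isClosed_ccub (c : ℝ × ℝ) (z h : ℝ) (k : ℤ) : IsClosed (ccub c z h k) := by
  have h0 := continuous_coord 0
  have h1 := continuous_coord 1
  have h2 := continuous_coord 2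
  have e : ccub c z h k = {x : E | |x 0 - c.1| ≤ h / 2} ∩ ({x : E | |x 1 - c.2| ≤ h / 2} ∩
      ({x : E | z - (k + 1) * h ≤ x 2} ∩ {x : E | x 2 ≤ z - k * h})) := by
    ext x; simp [ccub]
  rw [e]
  refine IsClosed.inter ?_ (IsClosed.inter ?_ (IsClosed.inter ?_ ?_))
  · exact isClosed_le (h0.sub continuous_const).abs continuous_const
  · exact isClosed_le (h1.sub continuous_const).abs continuous_const
  · exact isClosed_le continuous_const h2
  · exact isClosed_le h2 continuous_const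

theorem cub_subset_ccub (c : ℝ × ℝ) (z h : ℝ) (k : ℤ) : cub c z h k ⊆ ccub c z h k :=
  fun _ hx => ⟨hx.1.le, hx.2.1.le, hx.2.2.1.le, hx.2.2.2.le⟩

theorem isOpen_cel {g : ℝ × ℝ → ℝ} (hg : Continuous g) (L : ℝ) (c : ℝ × ℝ) (h : ℝ) (k : ℤ) :
    IsOpen (cel g L c h k) := by
  unfold cel
  split_ifs
  · exact isOpen_TopCell hg _ _ _
  · exact isOpen_cub _ _ _ _

/-- the corner of the cube -/
noncomputable def crk (c : ℝ × ℝ) (z h : ℝ) (k : ℤ) : E :=
  !₂[c.1 - h / 2, c.2 - h / 2, z - (k + 1) * h]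

theorem cub_eq (c : ℝ × ℝ) (z h : ℝ) (k : ℤ) :
    {x : E | ∀ i, (crk c z h k) i < x i ∧ x i < (crk c z h k) i + h} = cub c z h k := by
  ext x
  simp only [mem_ofPred_eq, cub, Fin.forall_fin_succ, abs_lt]
  simp [crk]
  constructor
  · rintro ⟨⟨a1, a2⟩, ⟨b1, b2⟩, d1, d2⟩
    refine ⟨⟨by linarith, by linarith⟩, ⟨by linarith, by linarith⟩, by linarith, by linarith⟩
  · rintro ⟨⟨a1, a2⟩, ⟨b1, b2⟩, d1, d2⟩
    refine ⟨⟨by linarith, by linarith⟩, ⟨by linarith, by linarith⟩, by linarith, by linarith⟩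

theorem ccub_eq (c : ℝ × ℝ) (z h : ℝ) (k : ℤ) :
    {x : E | ∀ i, (crk c z h k) i ≤ x i ∧ x i ≤ (crk c z h k) i + h} = ccub c z h k := by
  ext x
  simp only [mem_ofPred_eq, ccub, Fin.forall_fin_succ, abs_le]
  simp [crk]
  constructor
  · rintro ⟨⟨a1, a2⟩, ⟨b1, b2⟩, d1, d2⟩
    refine ⟨⟨by linarith, by linarith⟩, ⟨by linarith, by linarith⟩, by linarith, by linarith⟩
  · rintro ⟨⟨a1, a2⟩, ⟨b1, b2⟩, d1, d2⟩
    refine ⟨⟨by linarith, by linarith⟩, ⟨by linarith, by linarith⟩, by linarith, by linarith⟩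

/-- coordinate hyperplanes are null sets -/
theorem vol_hyp (k : Fin 3) (t : ℝ) : volume {x : E | x k = t} = 0 := by
  have h1 := (PiLp.volume_preserving_ofLp (Fin 3)).measure_preimage (s := {f : Fin 3 → ℝ | f k = t})
    (by
      refine (measurableSet_eq_fun (measurable_pi_apply k) measurable_const).nullMeasurableSet)
  have h2 : volume {f : Fin 3 → ℝ | f k = t} = 0 := by
    rw [volume_pi]
    exact Measure.pi_hyperplane (fun _ : Fin 3 => (volume : Measure ℝ)) k t
  rw [h2] at h1
  exact h1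

/-- integers of absolute value at most `K` as indices -/
def toI {K : ℕ} (i : Fin (2 * K + 1)) : ℤ := (i : ℤ) - K

theorem toI_inj {K : ℕ} {i j : Fin (2 * K + 1)} (h : toI i = toI j) : i = j := by
  unfold toI at h
  apply Fin.ext
  omega

theorem toI_surj {K : ℕ} {i : ℤ} (h : |(i : ℝ)| ≤ K) : ∃ a : Fin (2 * K + 1), toI a = i := by
  have h' : |i| ≤ K := by
    rw [← Int.cast_abs] at h
    exact_mod_cast h
  rw [abs_le] at h'
  refine ⟨⟨(i + K).toNat, by omega⟩, ?_⟩
  unfold toI
  simp only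
  omega

theorem cell (hcub : T_CUB) (htop : T_TOP) : T_CEL := by
  classical
  intro L0 δ hδ
  set L : ℝ≥0 := max L0 1 with hLdef
  have hL1 : (1:ℝ) ≤ L := by
    have : (1:ℝ≥0) ≤ L := le_max_right _ _
    exact_mod_cast this
  set d : ℝ := min δ 1 / (12 * (1 + L)) with hd
  have hmin : 0 < min δ 1 := lt_min hδ one_pos
  have hd0 : 0 < d := by positivity
  have hd1 : 12 * (1 + L) * d ≤ 1 := by
    have : 12 * (1 + (L:ℝ)) * d = min δ 1 := by
      rw [hd]; field_simp
    rw [this]; exact min_le_right _ _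
  have hd2 : 12 * (1 + L) * d ≤ δ := by
    have : 12 * (1 + (L:ℝ)) * d = min δ 1 := by
      rw [hd]; field_simp
    rw [this]; exact min_le_left _ _
  obtain ⟨K, hK⟩ := exists_nat_ge (1 / (2 * d) + 2 * L + 3)
  let J : Type := Fin (2 * K + 1) × Fin (2 * K + 1) × Fin (2 * K + 1)
  refine ⟨Fintype.card J, ?_⟩
  intro g x0 ρ hg0 hρ
  have hg : LipschitzWith L g := hg0.weaken (le_max_left _ _)
  have hgc := hg.continuous
  set h : ℝ := d * ρ with hh'
  have hh : 0 < h := mul_pos hd0 hρ
  have hρh : ρ / h = 1 / d := by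
    rw [hh']; field_simp
  have hsmall : 3 * (1 + L) * h ≤ ρ / 4 := by
    have := mul_le_mul_of_nonneg_right hd1 hρ.le
    rw [hh']
    nlinarith
  have hsq : (12 * (1 + L)) ^ 2 * h ^ 2 ≤ (δ * ρ) ^ 2 := by
    have h1 : 12 * (1 + L) * h ≤ δ * ρ := by
      have := mul_le_mul_of_nonneg_right hd2 hρ.le
      rw [hh']
      nlinarith
    have h2 : 0 ≤ 12 * (1 + L) * h := by positivity
    calc (12 * (1 + (L:ℝ))) ^ 2 * h ^ 2 = (12 * (1 + L) * h) ^ 2 := by ring
      _ ≤ (δ * ρ) ^ 2 := pow_le_pow_left₀ h2 h1 2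
  let G : Set E := {x | x ∈ ball x0 ρ ∧ x 2 < g (x 0, x 1)}
  have hGo : IsOpen G := by
    have e : G = ball x0 ρ ∩ {x : E | x 2 < g (x 0, x 1)} := by ext x; simp [G]
    rw [e]
    exact isOpen_ball.inter (isOpen_lt (continuous_coord 2)
      (hgc.comp ((continuous_coord 0).prodMk (continuous_coord 1))))
  let cc : J → ℝ × ℝ := fun q => (x0 0 + h * toI q.1, x0 1 + h * toI q.2.1)
  let zz : J → ℝ := fun q => g (cc q) - L * h
  let kk : J → ℤ := fun q => ⌊(zz q - x0 2) / h⌋ + toI q.2.2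
  let C : J → Set E := fun q => cel g L (cc q) h (kk q)
  let good : J → Prop := fun q => 0 ≤ kk q ∧ (C q ∩ ball x0 (ρ / 2)).Nonempty
  have hCo : ∀ q, IsOpen (C q) := fun q => isOpen_cel hgc _ _ _ _
  -- position of the good cells
  have hdist : ∀ q, good q → ∀ y : E, |y 0 - (cc q).1| ≤ h / 2 → |y 1 - (cc q).2| ≤ h / 2 →
      zz q - (kk q + 1) * h ≤ y 2 → y 2 ≤ zz q - kk q * h + 3 / 2 * L * h → y ∈ ball x0 ρ := by
    rintro q ⟨hq0, x, hxC, hxb⟩ y hy0 hy1 hy2 hy3
    obtain ⟨p0, p1, p2, p3, -⟩ := cel_pos hg hh hxC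
    have e0 : |y 0 - x 0| ≤ h := by
      have h1 := abs_le.mp hy0
      have h2 := abs_lt.mp p0
      rw [abs_le]; constructor <;> linarith [h1.1, h1.2, h2.1, h2.2]
    have e1 : |y 1 - x 1| ≤ h := by
      have h1 := abs_le.mp hy1
      have h2 := abs_lt.mp p1
      rw [abs_le]; constructor <;> linarith [h1.1, h1.2, h2.1, h2.2]
    have e2 : |y 2 - x 2| ≤ (1 + 3 / 2 * L) * h := by
      have h3 : zz q - (kk q + 1) * h < x 2 := p2
      have h4 : x 2 < zz q - kk q * h + 3 / 2 * L * h := p3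
      rw [abs_le]; constructor <;> nlinarith
    have e3 := norm_le_coords e0 e1 e2
    rw [mem_ball] at hxb ⊢
    have e4 : dist y x ≤ ρ / 4 := by
      rw [dist_eq_norm]
      have : h + h + (1 + 3 / 2 * L) * h ≤ 3 * (1 + L) * h := by nlinarith [mul_pos hh (by linarith : (0:ℝ) < L)]
      linarith
    calc dist y x0 ≤ dist y x + dist x x0 := dist_triangle _ _ _
      _ < ρ := by linarith
  have hCG : ∀ q, good q → C q ⊆ G := by
    intro q hq y hy
    obtain ⟨p0, p1, p2, p3, p4⟩ := cel_pos hg hh hy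
    exact ⟨hdist q hq y p0.le p1.le p2.le p3.le, p4 hq.1⟩
  have hccG : ∀ q, good q → ccub (cc q) (zz q) h (kk q) ⊆ G := by
    rintro q hq y ⟨p0, p1, p2, p3⟩
    have h5 : 0 < L * h := by positivity
    refine ⟨hdist q hq y p0 p1 p2 (by linarith), ?_⟩
    have h4 := (abs_le.mp (lip_sq hg (c := cc q) (a := (y 0, y 1)) (h := h) p0 p1)).1
    have h6 : (0:ℝ) ≤ kk q := by exact_mod_cast hq.1
    have h7 : 0 ≤ (kk q : ℝ) * h := by positivity
    have h8 : zz q = g (cc q) - L * h := rfl
    linarith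
  let e : Fin (Fintype.card J) ≃ J := (Fintype.equivFin J).symm
  refine ⟨fun i => if good (e i) then cub (cc (e i)) (zz (e i)) h (kk (e i)) else ∅, ?_, ?_⟩
  · intro i
    by_cases hi : good (e i)
    · simp only [if_pos hi]
      exact ⟨(isOpen_cub _ _ _ _).measurableSet, (cub_subset_ccub _ _ _ _).trans (hccG _ hi)⟩
    · simp only [if_neg hi]
      exact ⟨MeasurableSet.empty, empty_subset _⟩
  · intro v hv hv2 hg2 hB
    have hv1 : ContDiffOn ℝ 1 v G := hv.of_le (by simp)
    have hzero : ∀ q, good q → ∫ x in cub (cc q) (zz q) h (kk q), v x = 0 := by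
      intro q hq
      have h1 := hB (e.symm q)
      simp only [Equiv.apply_symm_apply, if_pos hq] at h1
      exact h1
    -- the inequality in a good cell
    have hcell : ∀ q, good q → ∫ x in C q, v x ^ 2 ≤ (δ * ρ) ^ 2 * ∫ x in C q, ‖gr v x‖ ^ 2 := by
      intro q hq
      have hn : 0 ≤ ∫ x in C q, ‖gr v x‖ ^ 2 := integral_nonneg fun x => sq_nonneg _
      by_cases hk : kk q = 0
      · have hC : C q = TopCell g L (cc q) h := by
          simp only [C, cel, hk, if_true]
        have hlow : LowCell g L (cc q) h = cub (cc q) (zz q) h (kk q) := by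
          rw [low_eq_cub, hk]
        rw [hC] at hn ⊢
        have h1 := htop g L (cc q) h G v hg hh hGo (hC ▸ hCG q hq)
          (by
            rw [hlow]
            exact (closure_minimal (cub_subset_ccub _ _ _ _) (isClosed_ccub _ _ _ _)).trans
              (hccG q hq)) hv1 (hv2.mono_set (hC ▸ hCG q hq)) (hg2.mono_set (hC ▸ hCG q hq))
          (by rw [hlow]; exact hzero q hq)
        refine h1.trans (mul_le_mul_of_nonneg_right ?_ hn)
        have h2 : 0 ≤ (1 + (L:ℝ)) ^ 2 * h ^ 2 := by positivity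
        nlinarith
      · have hC : C q = cub (cc q) (zz q) h (kk q) := by
          simp only [C, cel, hk, if_false, zz]
        rw [hC] at hn ⊢
        have h1 := hcub (crk (cc q) (zz q) h (kk q)) h G v hh hGo
          (by rw [ccub_eq]; exact hccG q hq) hv1 (by rw [cub_eq]; exact hzero q hq)
        rw [cub_eq] at h1
        refine h1.trans (mul_le_mul_of_nonneg_right ?_ hn)
        have h2 : (1:ℝ) ≤ (1 + L) ^ 2 := by nlinarith
        have h3 : 0 ≤ h ^ 2 := by positivity
        nlinarith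
    -- disjointness
    have hdisj : ∀ q, good q → ∀ q', good q' → q ≠ q' → Disjoint (C q) (C q') := by
      intro q hq q' hq' hne
      rw [Set.disjoint_left]
      intro x hx hx'
      apply hne
      obtain ⟨p0, p1, p2, p3, -⟩ := cel_pos hg hh hx
      obtain ⟨r0, r1, r2, r3, -⟩ := cel_pos hg hh hx'
      have aux : ∀ (t s : ℝ) (i j : ℤ), |t - (s + h * i)| < h / 2 → |t - (s + h * j)| < h / 2 →
          i = j := by
        intro t s i j hi hj
        have h1 := abs_lt.mp hi
        have h2 := abs_lt.mp hj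
        have h3 : (i:ℝ) < j + 1 := by
          have : h * i < h * (j + 1) := by nlinarith [h1.1, h1.2, h2.1, h2.2]
          exact lt_of_mul_lt_mul_left this hh.le
        have h4 : (j:ℝ) < i + 1 := by
          have : h * j < h * (i + 1) := by nlinarith [h1.1, h1.2, h2.1, h2.2]
          exact lt_of_mul_lt_mul_left this hh.le
        have h5 : i < j + 1 := by exact_mod_cast h3
        have h6 : j < i + 1 := by exact_mod_cast h4
        omega
      have e1 : q.1 = q'.1 := toI_inj (aux (x 0) (x0 0) _ _ p0 r0)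
      have e2 : q.2.1 = q'.2.1 := toI_inj (aux (x 1) (x0 1) _ _ p1 r1)
      have ec : cc q = cc q' := by simp only [cc, e1, e2]
      have ez : zz q = zz q' := by simp only [zz, ec]
      have key : ∀ k k' : ℤ, 0 ≤ k → k < k' → x ∈ cel g L (cc q) h k →
          x ∈ cel g L (cc q) h k' → False := by
        intro k k' hk0 hkk hxk hxk'
        obtain ⟨-, -, a2, -, -⟩ := cel_pos hg hh hxk
        have hk' : k' ≠ 0 := by omega
        have hxk2 : x ∈ cub (cc q) (g (cc q) - L * h) h k' := by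
          unfold cel at hxk'
          rwa [if_neg hk'] at hxk'
        obtain ⟨-, -, -, b3⟩ := hxk2
        have h1 : (k:ℝ) + 1 ≤ k' := by exact_mod_cast hkk
        nlinarith
      have ek : kk q = kk q' := by
        rcases lt_trichotomy (kk q) (kk q') with h1 | h1 | h1
        · exact (key _ _ hq.1 h1 hx (by rw [ec]; exact hx')).elim
        · exact h1
        · exact (key _ _ hq'.1 h1 (by rw [ec]; exact hx') hx).elim
      have e3 : q.2.2 = q'.2.2 := by
        apply toI_inj
        have : ⌊(zz q - x0 2) / h⌋ + toI q.2.2 = ⌊(zz q' - x0 2) / h⌋ + toI q'.2.2 := ek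
        rw [ez] at this
        omega
      exact Prod.ext e1 (Prod.ext e2 e3)
    -- the exceptional set
    let N : Set E := (⋃ i : ℤ, {x : E | x 0 = x0 0 + h * i + h / 2}) ∪
      ((⋃ i : ℤ, {x : E | x 1 = x0 1 + h * i + h / 2}) ∪
        ⋃ i : ℤ, ⋃ j : ℤ, ⋃ k : ℤ, {x : E | x 2 = g (x0 0 + h * i, x0 1 + h * j) - L * h - k * h})
    have hN : volume N = 0 := by
      refine measure_union_null ?_ (measure_union_null ?_ ?_)
      · exact measure_iUnion_null fun i => vol_hyp 0 _
      · exact measure_iUnion_null fun i => vol_hyp 1 _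
      · exact measure_iUnion_null fun i => measure_iUnion_null fun j => measure_iUnion_null
          fun k => vol_hyp 2 _
    let gd : Finset J := Finset.univ.filter good
    have hgd : ∀ q, q ∈ gd ↔ good q := fun q => by simp [gd]
    have hcover : {x : E | x ∈ ball x0 (ρ / 2) ∧ x 2 < g (x 0, x 1)} \ N ⊆ ⋃ q ∈ gd, C q := by
      rintro x ⟨⟨hxb, hxg⟩, hxN⟩
      have hN0 : ∀ i : ℤ, x 0 ≠ x0 0 + h * i + h / 2 := fun i hi =>
        hxN (Or.inl (mem_iUnion.mpr ⟨i, hi⟩))
      have hN1 : ∀ i : ℤ, x 1 ≠ x0 1 + h * i + h / 2 := fun i hi =>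
        hxN (Or.inr (Or.inl (mem_iUnion.mpr ⟨i, hi⟩)))
      have hN2 : ∀ i j k : ℤ, x 2 ≠ g (x0 0 + h * i, x0 1 + h * j) - L * h - k * h :=
        fun i j k hi => hxN (Or.inr (Or.inr (mem_iUnion.mpr ⟨i, mem_iUnion.mpr ⟨j,
          mem_iUnion.mpr ⟨k, hi⟩⟩⟩)))
      rw [mem_ball] at hxb
      have hcoord : ∀ k : Fin 3, |x k - x0 k| < ρ / 2 := fun k =>
        (abs_coord_le x x0 k).trans_lt hxb
      have hρ2 : ρ / 2 / h = 1 / (2 * d) := by
        rw [hh']; field_simp
      -- horizontal indices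
      have hor : ∀ (t s : ℝ), |t - s| < ρ / 2 → (∀ i : ℤ, t ≠ s + h * i + h / 2) →
          ∃ i : ℤ, |(i:ℝ)| ≤ K ∧ |t - (s + h * i)| < h / 2 := by
        intro t s hts hne
        refine ⟨round ((t - s) / h), ?_, ?_⟩
        · have h1 := abs_sub_round ((t - s) / h)
          have h2 : |(t - s) / h| ≤ 1 / (2 * d) := by
            rw [abs_div, abs_of_pos hh, ← hρ2]
            exact (div_lt_div_of_pos_right hts hh).le
          have h3 := abs_sub_abs_le_abs_sub ((round ((t - s) / h) : ℤ) : ℝ) ((t - s) / h)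
          rw [abs_sub_comm] at h3
          have h4 : (0:ℝ) ≤ L := by linarith
          linarith
        · have h1 := abs_sub_round ((t - s) / h)
          have h2 : |t - (s + h * round ((t - s) / h))| ≤ h / 2 := by
            have e1 : t - (s + h * round ((t - s) / h)) =
                h * ((t - s) / h - round ((t - s) / h)) := by
              field_simp
              ring
            rw [e1, abs_mul, abs_of_pos hh]
            nlinarith
          refine lt_of_le_of_ne h2 fun heq => ?_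
          rcases (abs_eq (by positivity)).mp heq with h3 | h3
          · exact hne (round ((t - s) / h)) (by linarith)
          · refine hne (round ((t - s) / h) - 1) ?_
            push_cast
            linarith
      obtain ⟨i, hiK, hi⟩ := hor (x 0) (x0 0) (hcoord 0) hN0
      obtain ⟨j, hjK, hj⟩ := hor (x 1) (x0 1) (hcoord 1) hN1
      obtain ⟨a, ha⟩ := toI_surj hiK
      obtain ⟨b, hb⟩ := toI_surj hjK
      set c : ℝ × ℝ := (x0 0 + h * i, x0 1 + h * j) with hc
      set z : ℝ := g c - L * h with hz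
      have hzt : |(z - x 2) / h - (z - x0 2) / h| ≤ 1 / (2 * d) := by
        have e1 : (z - x 2) / h - (z - x0 2) / h = (x0 2 - x 2) / h := by ring
        rw [e1, abs_div, abs_of_pos hh, ← hρ2, abs_sub_comm]
        exact (div_lt_div_of_pos_right (hcoord 2) hh).le
      -- vertical index
      have hver : ∃ k : ℤ, 0 ≤ k ∧ |((k - ⌊(z - x0 2) / h⌋ : ℤ) : ℝ)| ≤ K ∧ x ∈ cel g L c h k := by
        have hfl := Int.floor_le ((z - x0 2) / h)
        have hfl' := Int.lt_floor_add_one ((z - x0 2) / h)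
        have hzt' := abs_le.mp hzt
        by_cases hx2 : z - h < x 2
        · refine ⟨0, le_rfl, ?_, ?_⟩
          · have h4 := (abs_le.mp (lip_sq hg (c := c) (a := (x 0, x 1)) (h := h) hi.le hj.le)).2
            have h5 : (z - x 2) / h < 1 := by
              rw [div_lt_one hh]; linarith
            have h6 : -(3 / 2 * L) ≤ (z - x 2) / h := by
              rw [le_div_iff₀ hh]
              nlinarith
            rw [abs_le]
            push_cast
            constructor <;> linarith [hzt'.1, hzt'.2]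
          · unfold cel
            rw [if_pos rfl]
            exact ⟨hi, hj, by linarith, hxg⟩
        · push Not at hx2
          have h5 : 1 ≤ (z - x 2) / h := by
            rw [le_div_iff₀ hh]; linarith
          have h6 : 1 ≤ ⌊(z - x 2) / h⌋ := Int.le_floor.mpr (by exact_mod_cast h5)
          have g1 := Int.floor_le ((z - x 2) / h)
          have g2 := Int.lt_floor_add_one ((z - x 2) / h)
          refine ⟨⌊(z - x 2) / h⌋, by omega, ?_, ?_⟩
          · rw [abs_le]
            push_cast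
            constructor <;> linarith [hzt'.1, hzt'.2]
          · unfold cel
            rw [if_neg (by omega)]
            rw [le_div_iff₀ hh] at g1
            rw [div_lt_iff₀ hh] at g2
            refine ⟨hi, hj, by linarith, lt_of_le_of_ne (by linarith) ?_⟩
            exact hN2 i j _
      obtain ⟨k, hk0, hkK, hxk⟩ := hver
      obtain ⟨s, hs⟩ := toI_surj hkK
      let q : J := (a, b, s)
      have ecq : cc q = c := by
        simp only [cc, q, ha, hb, hc]
      have ezq : zz q = z := by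
        simp only [zz, ecq, hz]
      have ekq : kk q = k := by
        simp only [kk, ezq]
        have : toI q.2.2 = k - ⌊(z - x0 2) / h⌋ := hs
        rw [this]
        omega
      have hxC : x ∈ C q := by
        simp only [C]
        rw [ecq, ekq]
        exact hxk
      refine mem_iUnion₂.mpr ⟨q, (hgd q).mpr ⟨by rw [ekq]; exact hk0, x, hxC, ?_⟩, hxC⟩
      rw [mem_ball]
      exact hxb
    have hUG : (⋃ q ∈ gd, C q) ⊆ G := iUnion₂_subset fun q hq => hCG q ((hgd q).mp hq)
    have hae : ({x : E | x ∈ ball x0 (ρ / 2) ∧ x 2 < g (x 0, x 1)} : Set E) ≤ᵐ[volume]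
        (⋃ q ∈ gd, C q : Set E) := by
      have h1 : ∀ᵐ x ∂(volume : Measure E), x ∉ N := by
        rw [ae_iff]
        simpa using hN
      filter_upwards [h1] with x hx hxs
      exact hcover ⟨hxs, hx⟩
    have hpw : Set.Pairwise (↑gd : Set J) (Function.onFun Disjoint C) := by
      intro q hq q' hq' hne
      exact hdisj q ((hgd q).mp hq) q' ((hgd q').mp hq') hne
    calc ∫ x in {x | x ∈ ball x0 (ρ / 2) ∧ x 2 < g (x 0, x 1)}, v x ^ 2
        ≤ ∫ x in ⋃ q ∈ gd, C q, v x ^ 2 :=
          setIntegral_mono_set (hv2.mono_set hUG) (ae_of_all _ fun x => sq_nonneg _) hae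
      _ = ∑ q ∈ gd, ∫ x in C q, v x ^ 2 :=
          integral_biUnion_finset gd (fun q _ => (hCo q).measurableSet) hpw
            (fun q hq => hv2.mono_set (hCG q ((hgd q).mp hq)))
      _ ≤ ∑ q ∈ gd, (δ * ρ) ^ 2 * ∫ x in C q, ‖gr v x‖ ^ 2 :=
          Finset.sum_le_sum fun q hq => hcell q ((hgd q).mp hq)
      _ = (δ * ρ) ^ 2 * ∫ x in ⋃ q ∈ gd, C q, ‖gr v x‖ ^ 2 := by
          rw [← Finset.mul_sum, integral_biUnion_finset gd (fun q _ => (hCo q).measurableSet) hpw
            (fun q hq => hg2.mono_set (hCG q ((hgd q).mp hq)))]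
      _ ≤ (δ * ρ) ^ 2 * ∫ x in {x | x ∈ ball x0 ρ ∧ x 2 < g (x 0, x 1)}, ‖gr v x‖ ^ 2 := by
          refine mul_le_mul_of_nonneg_left ?_ (by positivity)
          exact setIntegral_mono_set hg2 (ae_of_all _ fun x => sq_nonneg _) (ae_of_all _ hUG)

end Pool.Agent.H14.IC
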