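import Pool.Agent.H94.IC.Defs

/-!
Vertical lines in space: a volume preserving parametrisation, Fubini for sets of columns, and the
one-dimensional estimate along a line.
-/

open MeasureTheory Set Filter Topology Metric
open scoped ENNReal NNReal ContDiff RealInnerProductSpace

namespace Pool.Agent.H14.IC

open Pool.Agent.H94.IC

/-- the point with horizontal coordinates `p.1` and height `p.2`, as a measurable equivalence -/
noncomputable def em : (ℝ × ℝ) × ℝ ≃ᵐ E :=
  (MeasurableEquiv.prodComm.trans ((MeasurableEquiv.prodCongr (MeasurableEquiv.refl ℝ)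
    (MeasurableEquiv.finTwoArrow (α := ℝ)).symm).trans
      (MeasurableEquiv.piFinSuccAbove (fun _ : Fin 3 => ℝ) 2).symm)).trans
    (MeasurableEquiv.toLp 2 (Fin 3 → ℝ))

theorem em_0 (a : ℝ × ℝ) (t : ℝ) : (em (a, t)) 0 = a.1 := rfl
theorem em_1 (a : ℝ × ℝ) (t : ℝ) : (em (a, t)) 1 = a.2 := rfl
theorem em_2 (a : ℝ × ℝ) (t : ℝ) : (em (a, t)) 2 = t := rfl

theorem mp_em : MeasurePreserving em volume volume := by
  have h1 : MeasurePreserving (MeasurableEquiv.prodComm : (ℝ × ℝ) × ℝ ≃ᵐ ℝ × (ℝ × ℝ)) volume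
    volume := Measure.measurePreserving_swap
  have h2 : MeasurePreserving (MeasurableEquiv.prodCongr (MeasurableEquiv.refl ℝ)
      (MeasurableEquiv.finTwoArrow (α := ℝ)).symm) (volume : Measure (ℝ × (ℝ × ℝ)))
      (volume : Measure (ℝ × (Fin 2 → ℝ))) :=
    (MeasurePreserving.id _).prod (volume_preserving_finTwoArrow ℝ).symm
  have h3 : MeasurePreserving (MeasurableEquiv.piFinSuccAbove (fun _ : Fin 3 => ℝ) 2).symm
      (volume : Measure (ℝ × (Fin 2 → ℝ))) (volume : Measure (Fin 3 → ℝ)) :=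
    (volume_preserving_piFinSuccAbove (fun _ : Fin 3 => ℝ) 2).symm
  have h4 : MeasurePreserving (MeasurableEquiv.toLp 2 (Fin 3 → ℝ)) volume volume :=
    (EuclideanSpace.volume_preserving_symm_measurableEquiv_toLp (Fin 3)).symm
  exact h4.comp (h3.comp (h2.comp h1))

theorem continuous_em : Continuous em := by
  have : (em : (ℝ × ℝ) × ℝ → E) = fun p => !₂[p.1.1, p.1.2, p.2] := by
    funext p
    ext i
    fin_cases i <;> rfl
  rw [this]
  fun_prop

/-- Tonelli along vertical lines -/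
theorem lint_em {F : E → ℝ≥0∞} (hF : AEMeasurable F volume) :
    ∫⁻ x, F x = ∫⁻ a : ℝ × ℝ, ∫⁻ t : ℝ, F (em (a, t)) := by
  rw [← mp_em.lintegral_comp_emb em.measurableEmbedding]
  have h : AEMeasurable (fun p => F (em p)) ((volume : Measure (ℝ × ℝ)).prod
      (volume : Measure ℝ)) := hF.comp_quasiMeasurePreserving mp_em.quasiMeasurePreserving
  rw [Measure.volume_eq_prod, lintegral_prod _ h]

theorem aemeas_em {F : E → ℝ≥0∞} (hF : AEMeasurable F volume) :
    AEMeasurable (fun a : ℝ × ℝ => ∫⁻ t : ℝ, F (em (a, t))) volume := by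
  have h : AEMeasurable (fun p => F (em p)) ((volume : Measure (ℝ × ℝ)).prod
      (volume : Measure ℝ)) := hF.comp_quasiMeasurePreserving mp_em.quasiMeasurePreserving
  exact h.lintegral_prod_right'

theorem em_add (a : ℝ × ℝ) (s t : ℝ) : em (a, t) = em (a, s) + (t - s) • ev 2 := by
  ext i
  fin_cases i
  · simp [em_0]
  · simp [em_1]
  · simp [em_2]

/-- derivative along a vertical line -/
theorem hasDerivAt_em {v : E → ℝ} {a : ℝ × ℝ} {t : ℝ} (h : DifferentiableAt ℝ v (em (a, t))) :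
    HasDerivAt (fun s => v (em (a, s))) (fderiv ℝ v (em (a, t)) (ev 2)) t := by
  have h1 : HasDerivAt (fun s : ℝ => em (a, t) + (s - t) • ev 2) (ev 2) t := by
    have h2 : HasDerivAt (fun s : ℝ => s - t) 1 t := (hasDerivAt_id t).sub_const t
    have h3 := (h2.smul_const (ev 2)).const_add (em (a, t))
    simpa using h3
  have h2 : (fun s => v (em (a, s))) = fun s => v (em (a, t) + (s - t) • ev 2) := by
    funext s
    rw [← em_add]
  rw [h2]
  have h3 : HasFDerivAt v (fderiv ℝ v (em (a, t))) (em (a, t) + (t - t) • ev 2) := by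
    simpa using h.hasFDerivAt
  exact h3.comp_hasDerivAt t h1

theorem abs_fderiv_ev_le (v : E → ℝ) (x : E) (k : Fin 3) : |fderiv ℝ v x (ev k)| ≤ ‖gr v x‖ := by
  have h1 : ‖gr v x‖ = ‖fderiv ℝ v x‖ := by
    simp [gr, gradient]
  rw [h1]
  calc |fderiv ℝ v x (ev k)| = ‖fderiv ℝ v x (ev k)‖ := rfl
    _ ≤ ‖fderiv ℝ v x‖ * ‖ev k‖ := ContinuousLinearMap.le_opNorm _ _
    _ = ‖fderiv ℝ v x‖ := by simp [ev]

/-- Cauchy-Schwarz on an interval -/
theorem sq_intervalIntegral_le {a b : ℝ} (hab : a ≤ b) {f : ℝ → ℝ} (hf : ContinuousOn f (Icc a b)) :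
    (∫ t in a..b, f t) ^ 2 ≤ (b - a) * ∫ t in a..b, f t ^ 2 := by
  rcases hab.eq_or_lt with rfl | hlt
  · simp
  · have hi : IntervalIntegrable f volume a b := by
      apply ContinuousOn.intervalIntegrable
      rwa [uIcc_of_le hab]
    have hi2 : IntervalIntegrable (fun t => f t ^ 2) volume a b := by
      apply ContinuousOn.intervalIntegrable
      rw [uIcc_of_le hab]
      exact hf.pow 2
    set I := ∫ t in a..b, f t with hI
    have hba : 0 < b - a := sub_pos.mpr hlt
    have h0 : 0 ≤ ∫ t in a..b, ((b - a) * f t - I) ^ 2 :=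
      intervalIntegral.integral_nonneg hab fun t _ => sq_nonneg _
    have h1 : ∫ t in a..b, ((b - a) * f t - I) ^ 2 =
        (b - a) ^ 2 * (∫ t in a..b, f t ^ 2) - (b - a) * I ^ 2 := by
      have e : ∀ t, ((b - a) * f t - I) ^ 2 = (b - a) ^ 2 * f t ^ 2 - (2 * (b - a) * I) * f t +
          I ^ 2 := fun t => by ring
      simp only [e]
      rw [intervalIntegral.integral_add ((hi2.const_mul _).sub (hi.const_mul _))
        intervalIntegrable_const, intervalIntegral.integral_sub (hi2.const_mul _)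
        (hi.const_mul _), intervalIntegral.integral_const_mul, intervalIntegral.integral_const_mul,
        intervalIntegral.integral_const, ← hI]
      simp only [smul_eq_mul]
      ring
    rw [h1] at h0
    have h2 : (b - a) * I ^ 2 ≤ (b - a) * ((b - a) * ∫ t in a..b, f t ^ 2) := by
      nlinarith
    exact le_of_mul_le_mul_left h2 hba

/-- increments on an open interval are controlled by the energy -/
theorem ofReal_sq_sub_le {α β H : ℝ} (hH : β - α ≤ H) {φ φ' : ℝ → ℝ}
    (hd : ∀ t ∈ Ioo α β, HasDerivAt φ (φ' t) t) (hc : ContinuousOn φ' (Ioo α β)) {s y : ℝ}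
    (hs : s ∈ Ioo α β) (hy : y ∈ Ioo α β) :
    ENNReal.ofReal ((φ y - φ s) ^ 2) ≤
      ENNReal.ofReal H * ∫⁻ t in Ioo α β, ENNReal.ofReal (φ' t ^ 2) := by
  wlog hsy : s ≤ y generalizing s y
  · have := this hy hs (le_of_not_ge hsy)
    have e : (φ y - φ s) ^ 2 = (φ s - φ y) ^ 2 := by ring
    rwa [e]
  have hsub : Icc s y ⊆ Ioo α β := fun t ht => ⟨hs.1.trans_le ht.1, ht.2.trans_lt hy.2⟩
  have hc' : ContinuousOn φ' (Icc s y) := hc.mono hsub
  have hi : IntervalIntegrable φ' volume s y := by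
    apply ContinuousOn.intervalIntegrable
    rwa [uIcc_of_le hsy]
  have hftc : ∫ t in s..y, φ' t = φ y - φ s := by
    apply intervalIntegral.integral_eq_sub_of_hasDerivAt _ hi
    intro t ht
    rw [uIcc_of_le hsy] at ht
    exact hd t (hsub ht)
  have h1 := sq_intervalIntegral_le hsy hc'
  rw [hftc, intervalIntegral.integral_of_le hsy] at h1
  have hint : IntegrableOn (fun t => φ' t ^ 2) (Ioc s y) volume :=
    ((hc'.pow 2).integrableOn_Icc).mono_set Ioc_subset_Icc_self
  have h2 : ENNReal.ofReal (∫ t in Ioc s y, φ' t ^ 2) ≤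
      ∫⁻ t in Ioo α β, ENNReal.ofReal (φ' t ^ 2) := by
    rw [ofReal_integral_eq_lintegral_ofReal hint (ae_of_all _ fun t => sq_nonneg _)]
    exact lintegral_mono_set (Ioc_subset_Icc_self.trans hsub)
  have h3 : y - s ≤ H := by
    have := hs.1
    have := hy.2
    linarith
  have h4 : 0 ≤ y - s := sub_nonneg.mpr hsy
  have h5 : 0 ≤ ∫ t in Ioc s y, φ' t ^ 2 := integral_nonneg fun t => sq_nonneg _
  calc ENNReal.ofReal ((φ y - φ s) ^ 2) ≤ ENNReal.ofReal (H * ∫ t in Ioc s y, φ' t ^ 2) := by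
        apply ENNReal.ofReal_le_ofReal
        refine h1.trans (mul_le_mul_of_nonneg_right h3 h5)
    _ = ENNReal.ofReal H * ENNReal.ofReal (∫ t in Ioc s y, φ' t ^ 2) :=
        ENNReal.ofReal_mul (h4.trans h3)
    _ ≤ _ := by gcongr

end Pool.Agent.H14.IC
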