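import Pool.Agent.H94.IC.Targets2

/-!
Module INC: the invisible set is relatively closed, analytic and null.
-/

open MeasureTheory Set Filter Topology Metric
open scoped ENNReal NNReal ContDiff RealInnerProductSpace

namespace Pool.Agent.H14.IC

open Pool.Agent.H94.IC

theorem contDiffOn_pd {O : Set E} (hO : IsOpen O) {f : E → ℝ} (hf : ContDiffOn ℝ ∞ f O)
    (k : Fin 3) : ContDiffOn ℝ ∞ (pd k f) O := by
  have h : ContDiffOn ℝ ∞ (fderiv ℝ f) O := hf.fderiv_of_isOpen hO (by simp)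
  exact h.clm_apply contDiffOn_const

theorem jac3_eq (u v w : E → ℝ) (x : E) : jac3 u v w x =
    pd 0 u x * pd 1 v x * pd 2 w x + (-1) * (pd 0 u x * pd 2 v x * pd 1 w x) +
    (-1) * (pd 1 u x * pd 0 v x * pd 2 w x) + pd 1 u x * pd 2 v x * pd 0 w x +
    pd 2 u x * pd 0 v x * pd 1 w x + (-1) * (pd 2 u x * pd 1 v x * pd 0 w x) := by
  unfold jac3
  rw [Matrix.det_fin_three]
  simp
  ring

theorem Lu_eq (u f : E → ℝ) (x : E) : Lu u f x =
    pd 0 u x * pd 0 f x + pd 1 u x * pd 1 f x + pd 2 u x * pd 2 f x := by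
  unfold Lu
  rw [Fin.sum_univ_three]

theorem contDiffOn_wd {N : ℕ} {O : Set E} {u : Fin N → E → ℝ} (hO : IsOpen O)
    (hu : ∀ i, ContDiffOn ℝ ∞ (u i) O) (b : Fin N × Fin N × Fin N) (l : List (Fin N)) :
    ContDiffOn ℝ ∞ (wd u b l) O := by
  have hp : ∀ i k, ContDiffOn ℝ ∞ (pd k (u i)) O := fun i k => contDiffOn_pd hO (hu i) k
  induction l with
  | nil =>
    have h : wd u b [] = fun x => jac3 (u b.1) (u b.2.1) (u b.2.2) x := rfl
    rw [h]
    simp only [jac3_eq]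
    have c : ContDiffOn ℝ ∞ (fun _ : E => (-1 : ℝ)) O := contDiffOn_const
    have m : ∀ i j k : Fin 3, ContDiffOn ℝ ∞ (fun x => pd i (u b.1) x * pd j (u b.2.1) x *
        pd k (u b.2.2) x) O := fun i j k => ((hp _ i).mul (hp _ j)).mul (hp _ k)
    exact (((((m 0 1 2).add (c.mul (m 0 2 1))).add (c.mul (m 1 0 2))).add (m 1 2 0)).add
      (m 2 0 1)).add (c.mul (m 2 1 0))
  | cons i l ih =>
    have h : wd u b (i :: l) = fun x => Lu (u i) (wd u b l) x := rfl
    rw [h]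
    simp only [Lu_eq]
    have m : ∀ k : Fin 3, ContDiffOn ℝ ∞ (fun x => pd k (u i) x * pd k (wd u b l) x) O :=
      fun k => (hp i k).mul (contDiffOn_pd hO ih k)
    exact ((m 0).add (m 1)).add (m 2)

theorem continuous_cx : Continuous cx := by
  unfold cx
  refine continuous_pi fun k => ?_
  exact Complex.continuous_ofReal.comp (continuous_apply k |>.comp (by fun_prop))

theorem mem_ball_of_cx {p x : E} {r : ℝ} (hr : 0 < r) (h : cx x ∈ ball (cx p) (r / 16)) :
    x ∈ ball p r := by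
  rw [mem_ball, dist_eq_norm] at h ⊢
  have hc : ∀ k, |x k - p k| < r / 16 := by
    intro k
    have h1 : ‖(cx x - cx p) k‖ ≤ ‖cx x - cx p‖ := norm_le_pi_norm _ k
    have h2 : (cx x - cx p) k = ((x k - p k : ℝ) : ℂ) := by
      simp [cx]
    rw [h2, Complex.norm_real] at h1
    exact lt_of_le_of_lt h1 h
  rw [EuclideanSpace.norm_eq, Real.sqrt_lt' hr, Fin.sum_univ_three]
  have hs : ∀ k : Fin 3, ‖(x - p) k‖ ^ 2 ≤ (r / 16) ^ 2 := by
    intro k
    have h1 : ‖(x - p) k‖ = |x k - p k| := by simp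
    rw [h1]
    exact pow_le_pow_left₀ (abs_nonneg _) (hc k).le 2
  have h0 := hs 0
  have h1 := hs 1
  have h2 := hs 2
  nlinarith

theorem hx_wd (hA : T_HXA) (hP : T_HXP) {N : ℕ} {O : Set E} {u : Fin N → E → ℝ} (hO : IsOpen O)
    (hu : ∀ i, ContDiffOn ℝ ∞ (u i) O) {p : E} {ρ : ℝ} (hball : ∀ x, cx x ∈ ball (cx p) ρ → x ∈ O)
    (hx : ∀ i, HX p ρ (u i)) (b : Fin N × Fin N × Fin N) (l : List (Fin N)) :
    HX p ρ (wd u b l) := by
  obtain ⟨hc, hadd, -⟩ := hA p ρ
  have hp : ∀ i k, HX p ρ (pd k (u i)) := fun i k => hP p ρ O (u i) k hO (hu i) hball (hx i)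
  induction l with
  | nil =>
    have h : wd u b [] = fun x => jac3 (u b.1) (u b.2.1) (u b.2.2) x := rfl
    rw [h]
    simp only [jac3_eq]
    have m : ∀ i j k : Fin 3, HX p ρ (fun x => pd i (u b.1) x * pd j (u b.2.1) x *
        pd k (u b.2.2) x) := fun i j k =>
      (hadd _ _ (hadd _ _ (hp _ i) (hp _ j)).2 (hp _ k)).2
    have m' : ∀ i j k : Fin 3, HX p ρ (fun x => (-1) * (pd i (u b.1) x * pd j (u b.2.1) x *
        pd k (u b.2.2) x)) := fun i j k => (hadd _ _ (hc (-1)) (m i j k)).2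
    exact (hadd _ _ (hadd _ _ (hadd _ _ (hadd _ _ (hadd _ _ (m 0 1 2) (m' 0 2 1)).1
      (m' 1 0 2)).1 (m 1 2 0)).1 (m 2 0 1)).1 (m' 2 1 0)).1
  | cons i l ih =>
    have h : wd u b (i :: l) = fun x => Lu (u i) (wd u b l) x := rfl
    rw [h]
    simp only [Lu_eq]
    have m : ∀ k : Fin 3, HX p ρ (fun x => pd k (u i) x * pd k (wd u b l) x) := fun k =>
      (hadd _ _ (hp i k) (hP p ρ O (wd u b l) k hO (contDiffOn_wd hO hu b l) hball ih)).2
    exact (hadd _ _ (hadd _ _ (m 0) (m 1)).1 (m 2)).1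

theorem inc (hA : T_HXA) (hP : T_HXP) (hH : T_HRX) (hI : T_IDT) (hN : T_NUL) (hW : T_ANW) :
    T_INC := by
  intro N O u hO hu
  have hus : ∀ i, ContDiffOn ℝ ∞ (u i) O := fun i => (hu i).1
  have hwd : ∀ b l, ContDiffOn ℝ ∞ (wd u b l) O := fun b l => contDiffOn_wd hO hus b l
  refine ⟨hwd, ?_, ?_⟩
  · intro x hx hxn
    have h1 : ∃ b l, wd u b l x ≠ 0 := by
      by_contra hcon
      push Not at hcon
      exact hxn ⟨hx, hcon⟩
    obtain ⟨b, l, hbl⟩ := h1
    have hc : ContinuousAt (wd u b l) x := (hwd b l).continuousOn.continuousAt (hO.mem_nhds hx)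
    filter_upwards [hc.eventually_ne hbl] with y hy hyI
    exact hy (hyI.2 b l)
  · intro hpre hnt
    obtain ⟨b0, x0, hx0, hne⟩ := hnt
    have hloc : ∀ p ∈ O, ∃ ρ : ℝ, 0 < ρ ∧ (∀ x, cx x ∈ ball (cx p) ρ → x ∈ O) ∧
        ∀ b l, HX p ρ (wd u b l) := by
      intro p hp
      obtain ⟨r, hr, hrO⟩ := Metric.isOpen_iff.mp hO p hp
      have hball : ∀ x, cx x ∈ ball (cx p) (r / 16) → x ∈ O := fun x hx =>
        hrO (mem_ball_of_cx hr hx)
      refine ⟨r / 16, by positivity, hball, fun b l => ?_⟩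
      exact hx_wd hA hP hO hus hball (fun i => hH O (u i) p r (hu i) hr hrO) b l
    have hloc0 : ∀ p ∈ O, ∃ ρ > 0, HX p ρ (wd u b0 []) := by
      intro p hp
      obtain ⟨ρ, hρ, -, h⟩ := hloc p hp
      exact ⟨ρ, hρ, h b0 []⟩
    have hcont : ContinuousOn (wd u b0 []) O := (hwd b0 []).continuousOn
    refine ⟨?_, ?_⟩
    · intro p hp
      obtain ⟨ρ, hρ, hball, hHX⟩ := hloc p hp
      have hcount : Countable ((Fin N × Fin N × Fin N) × List (Fin N)) := inferInstance
      have : Nonempty ((Fin N × Fin N × Fin N) × List (Fin N)) := ⟨(b0, [])⟩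
      obtain ⟨e, he⟩ := exists_surjective_nat ((Fin N × Fin N × Fin N) × List (Fin N))
      refine hW (fun n => wd u (e n).1 (e n).2) p ρ (Inv O u) hρ (fun n => hHX _ _) ?_ ?_
      · intro x hx
        constructor
        · intro h n
          exact h.2 _ _
        · intro h
          refine ⟨hball x hx, fun b l => ?_⟩
          obtain ⟨n, hn⟩ := he (b, l)
          have := h n
          rw [hn] at this
          exact this
      · by_contra hcon
        push Not at hcon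
        have hWo : IsOpen {x : E | cx x ∈ ball (cx p) ρ} := isOpen_ball.preimage continuous_cx
        have h1 := hI O {x : E | cx x ∈ ball (cx p) ρ} (wd u b0 []) hO hpre hcont hloc0 hWo
          ⟨p, by simp [hρ]⟩ (fun x hx => hball x hx) (fun x hx => (hcon x hx).2 b0 [])
        exact hne (h1 x0 hx0)
    · have h1 := hN O (wd u b0 []) hO hpre hcont hloc0 ⟨x0, hx0, hne⟩
      refine measure_mono_null ?_ h1
      intro x hx
      exact ⟨hx.1, hx.2 b0 []⟩

end Pool.Agent.H14.IC
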