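import Pool.Agent.H94.IC.Targets3
import Pool.Agent.H14.IC.Fub

/-!
Module TOP: Poincare inequality in the cells below a Lipschitz graph.
-/

open MeasureTheory Set Filter Topology Metric
open scoped ENNReal NNReal ContDiff RealInnerProductSpace

namespace Pool.Agent.H14.IC

open Pool.Agent.H94.IC

theorem continuous_coord (k : Fin 3) : Continuous fun x : E => x k := by fun_prop

theorem isOpen_TopCell {g : ℝ × ℝ → ℝ} (hg : Continuous g) (L : ℝ) (c : ℝ × ℝ) (h : ℝ) :
    IsOpen (TopCell g L c h) := by
  have h0 := continuous_coord 0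
  have h1 := continuous_coord 1
  have h2 := continuous_coord 2
  have e : TopCell g L c h = {x : E | |x 0 - c.1| < h / 2} ∩ ({x : E | |x 1 - c.2| < h / 2} ∩
      ({x : E | g c - L * h - h < x 2} ∩ {x : E | x 2 < g (x 0, x 1)})) := by
    ext x; simp [TopCell]
  rw [e]
  refine IsOpen.inter ?_ (IsOpen.inter ?_ (IsOpen.inter ?_ ?_))
  · exact isOpen_lt (h0.sub continuous_const).abs continuous_const
  · exact isOpen_lt (h1.sub continuous_const).abs continuous_const
  · exact isOpen_lt continuous_const h2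
  · exact isOpen_lt h2 (hg.comp (h0.prodMk h1))

theorem isOpen_LowCell (g : ℝ × ℝ → ℝ) (L : ℝ) (c : ℝ × ℝ) (h : ℝ) :
    IsOpen (LowCell g L c h) := by
  have h0 := continuous_coord 0
  have h1 := continuous_coord 1
  have h2 := continuous_coord 2
  have e : LowCell g L c h = {x : E | |x 0 - c.1| < h / 2} ∩ ({x : E | |x 1 - c.2| < h / 2} ∩
      ({x : E | g c - L * h - h < x 2} ∩ {x : E | x 2 < g c - L * h})) := by
    ext x; simp [LowCell]
  rw [e]
  refine IsOpen.inter ?_ (IsOpen.inter ?_ (IsOpen.inter ?_ ?_))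
  · exact isOpen_lt (h0.sub continuous_const).abs continuous_const
  · exact isOpen_lt (h1.sub continuous_const).abs continuous_const
  · exact isOpen_lt continuous_const h2
  · exact isOpen_lt h2 continuous_const

/-- the graph over the square is close to its value at the centre -/
theorem lip_sq {g : ℝ × ℝ → ℝ} {L : ℝ≥0} (hg : LipschitzWith L g) {c a : ℝ × ℝ} {h : ℝ}
    (h1 : |a.1 - c.1| ≤ h / 2) (h2 : |a.2 - c.2| ≤ h / 2) : |g a - g c| ≤ L * (h / 2) := by
  have h3 := hg.dist_le_mul a c
  rw [Real.dist_eq] at h3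
  refine h3.trans (mul_le_mul_of_nonneg_left ?_ L.coe_nonneg)
  rw [Prod.dist_eq, Real.dist_eq, Real.dist_eq]
  exact max_le h1 h2

/-- the corner of the flat cube -/
noncomputable def crn (g : ℝ × ℝ → ℝ) (L : ℝ) (c : ℝ × ℝ) (h : ℝ) : E :=
  !₂[c.1 - h / 2, c.2 - h / 2, g c - L * h - h]

theorem low_eq_cube (g : ℝ × ℝ → ℝ) (L : ℝ) (c : ℝ × ℝ) (h : ℝ) :
    {x : E | ∀ k, (crn g L c h) k < x k ∧ x k < (crn g L c h) k + h} = LowCell g L c h := by
  ext x
  simp only [mem_ofPred_eq, LowCell, Fin.forall_fin_succ, abs_lt]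
  simp [crn]
  constructor
  · rintro ⟨⟨a1, a2⟩, ⟨b1, b2⟩, d1, d2⟩
    refine ⟨⟨by linarith, by linarith⟩, ⟨by linarith, by linarith⟩, by linarith, by linarith⟩
  · rintro ⟨⟨a1, a2⟩, ⟨b1, b2⟩, d1, d2⟩
    refine ⟨⟨by linarith, by linarith⟩, ⟨by linarith, by linarith⟩, by linarith, by linarith⟩

/-- the closed cube is contained in the closure of the open cube -/
theorem closedCube_subset {a : E} {h : ℝ} (hh : 0 < h) :
    {x : E | ∀ k, a k ≤ x k ∧ x k ≤ a k + h} ⊆
      closure {x : E | ∀ k, a k < x k ∧ x k < a k + h} := by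
  intro x hx
  let m : E := WithLp.toLp 2 (fun k => a k + h / 2)
  have hm : ∀ k, m k = a k + h / 2 := fun k => rfl
  have hc : Continuous fun t : ℝ => x + t • (m - x) := by fun_prop
  have ht : Tendsto (fun t : ℝ => x + t • (m - x)) (𝓝[>] 0) (𝓝 x) := by
    have h1 := hc.tendsto 0
    simp only [zero_smul, add_zero] at h1
    exact h1.mono_left nhdsWithin_le_nhds
  refine mem_closure_of_tendsto ht ?_
  have h1 : Ioo (0:ℝ) 1 ∈ 𝓝[>] (0:ℝ) := Ioo_mem_nhdsGT one_pos
  filter_upwards [h1] with t ht k
  obtain ⟨ht0, ht1⟩ := ht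
  have e : (x + t • (m - x)) k = (1 - t) * x k + t * (a k + h / 2) := by
    simp [hm]
    ring
  rw [e]
  obtain ⟨h2, h3⟩ := hx k
  constructor
  · nlinarith
  · nlinarith

theorem top (hcub : T_CUB) : T_TOP := by
  intro g L c h U v hg hh hU hTU hLU hv hi1 hi2 hzero
  have hgc := hg.continuous
  have hL : (0:ℝ) ≤ L := L.coe_nonneg
  set z := g c - L * h with hz
  -- sets
  have hTo : IsOpen (TopCell g L c h) := isOpen_TopCell hgc _ _ _
  have hLo : IsOpen (LowCell g L c h) := isOpen_LowCell _ _ _ _
  have hLT : LowCell g L c h ⊆ TopCell g L c h := by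
    rintro x ⟨h0, h1, h2, h3⟩
    refine ⟨h0, h1, h2, h3.trans_le ?_⟩
    have h4 := lip_sq hg (c := c) (a := (x 0, x 1)) (h := h) h0.le h1.le
    have h5 := (abs_le.mp h4).1
    nlinarith
  have hLU' : LowCell g L c h ⊆ U := hLT.trans hTU
  -- regularity
  have hvT : ContDiffOn ℝ 1 v (TopCell g L c h) := hv.mono hTU
  have hdiff : ∀ x ∈ U, DifferentiableAt ℝ v x := fun x hx =>
    (hv.differentiableOn (by norm_num)).differentiableAt (hU.mem_nhds hx)
  have hfd : ContinuousOn (fderiv ℝ v) U := hv.continuousOn_fderiv_of_isOpen hU (by norm_num)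
  have hgr : ContinuousOn (gr v) U := by
    have : gr v = fun x => (InnerProductSpace.toDual ℝ E).symm (fderiv ℝ v x) := rfl
    rw [this]
    exact (InnerProductSpace.toDual ℝ E).symm.continuous.comp_continuousOn hfd
  -- the cube
  have hcube := hcub (crn g L c h) h U v hh hU (by
    refine (closedCube_subset hh).trans ?_
    rw [low_eq_cube]
    exact hLU) hv (by rw [low_eq_cube]; exact hzero)
  rw [low_eq_cube] at hcube
  -- lintegral version of the functions
  let F1 : E → ℝ≥0∞ := fun x => ENNReal.ofReal (v x ^ 2)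
  let F2 : E → ℝ≥0∞ := fun x => ENNReal.ofReal (‖gr v x‖ ^ 2)
  have mF1 : AEMeasurable ((TopCell g L c h).indicator F1) volume := by
    rw [aemeasurable_indicator_iff hTo.measurableSet]
    exact (((hv.continuousOn.mono hTU).pow 2).aemeasurable hTo.measurableSet).ennreal_ofReal
  have mF1' : AEMeasurable ((LowCell g L c h).indicator F1) volume := by
    rw [aemeasurable_indicator_iff hLo.measurableSet]
    exact (((hv.continuousOn.mono hLU').pow 2).aemeasurable hLo.measurableSet).ennreal_ofReal
  have mF2 : AEMeasurable ((TopCell g L c h).indicator F2) volume := by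
    rw [aemeasurable_indicator_iff hTo.measurableSet]
    exact ((((hgr.mono hTU).norm).pow 2).aemeasurable hTo.measurableSet).ennreal_ofReal
  set H : ℝ := (1 + 3 * L / 2) * h with hH
  have hH0 : h ≤ H := by
    rw [hH]
    nlinarith
  have hHpos : 0 < H := hh.trans_le hH0
  -- the estimate on a vertical line
  have hline : ∀ a : ℝ × ℝ, ENNReal.ofReal h * ∫⁻ t, (TopCell g L c h).indicator F1 (em (a, t)) ≤
      ENNReal.ofReal (2 * H) * (∫⁻ t, (LowCell g L c h).indicator F1 (em (a, t))) +
      ENNReal.ofReal (2 * H ^ 2 * h) * ∫⁻ t, (TopCell g L c h).indicator F2 (em (a, t)) := by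
    intro a
    by_cases ha : |a.1 - c.1| < h / 2 ∧ |a.2 - c.2| < h / 2
    · have hga := abs_le.mp (lip_sq hg ha.1.le ha.2.le)
      -- the columns
      have hcolT : ∀ t, em (a, t) ∈ TopCell g L c h ↔ t ∈ Ioo (z - h) (g a) := by
        intro t
        simp only [TopCell, mem_ofPred_eq, em_0, em_1, em_2, mem_Ioo, ha.1, ha.2, true_and, hz]
      have hcolL : ∀ t, em (a, t) ∈ LowCell g L c h ↔ t ∈ Ioo (z - h) z := by
        intro t
        simp only [LowCell, mem_ofPred_eq, em_0, em_1, em_2, mem_Ioo, ha.1, ha.2, true_and, hz]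
      have eT : ∀ F : E → ℝ≥0∞, ∫⁻ t, (TopCell g L c h).indicator F (em (a, t)) =
          ∫⁻ t in Ioo (z - h) (g a), F (em (a, t)) := by
        intro F
        rw [← lintegral_indicator measurableSet_Ioo]
        refine lintegral_congr fun t => ?_
        by_cases ht : t ∈ Ioo (z - h) (g a)
        · rw [indicator_of_mem ht, indicator_of_mem ((hcolT t).mpr ht)]
        · rw [indicator_of_notMem ht, indicator_of_notMem (fun h' => ht ((hcolT t).mp h'))]
      have eL : ∀ F : E → ℝ≥0∞, ∫⁻ t, (LowCell g L c h).indicator F (em (a, t)) =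
          ∫⁻ t in Ioo (z - h) z, F (em (a, t)) := by
        intro F
        rw [← lintegral_indicator measurableSet_Ioo]
        refine lintegral_congr fun t => ?_
        by_cases ht : t ∈ Ioo (z - h) z
        · rw [indicator_of_mem ht, indicator_of_mem ((hcolL t).mpr ht)]
        · rw [indicator_of_notMem ht, indicator_of_notMem (fun h' => ht ((hcolL t).mp h'))]
      rw [eT, eL, eT]
      have hlen : g a - (z - h) ≤ H := by
        rw [hH, hz]
        nlinarith [hga.2]
      have hza : z ≤ g a := by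
        rw [hz]
        nlinarith [hga.1]
      have hinU : ∀ t ∈ Ioo (z - h) (g a), em (a, t) ∈ U := fun t ht => hTU ((hcolT t).mpr ht)
      -- pointwise bound
      set D := ∫⁻ t in Ioo (z - h) (g a), F2 (em (a, t)) with hD
      have hpt : ∀ y ∈ Ioo (z - h) (g a), ∀ s ∈ Ioo (z - h) z,
          F1 (em (a, y)) ≤ 2 * F1 (em (a, s)) + ENNReal.ofReal (2 * H) * D := by
        intro y hy s hs
        have hs' : s ∈ Ioo (z - h) (g a) := ⟨hs.1, hs.2.trans_le hza⟩
        have h1 := ofReal_sq_sub_le (φ := fun t => v (em (a, t)))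
          (φ' := fun t => fderiv ℝ v (em (a, t)) (ev 2)) hlen
          (fun t ht => hasDerivAt_em (hdiff _ (hinU t ht)))
          (by
            have h2 : ContinuousOn (fun t => fderiv ℝ v (em (a, t))) (Ioo (z - h) (g a)) :=
              hfd.comp (continuous_em.comp (Continuous.prodMk_right a)).continuousOn hinU
            exact h2.clm_apply continuousOn_const) hs' hy
        have h2 : ∫⁻ t in Ioo (z - h) (g a), ENNReal.ofReal ((fderiv ℝ v (em (a, t)) (ev 2)) ^ 2)
            ≤ D := by
          refine lintegral_mono fun t => ?_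
          apply ENNReal.ofReal_le_ofReal
          rw [← sq_abs]
          exact pow_le_pow_left₀ (abs_nonneg _) (abs_fderiv_ev_le v _ 2) 2
        have h3 : v (em (a, y)) ^ 2 ≤ 2 * v (em (a, s)) ^ 2 +
            2 * (v (em (a, y)) - v (em (a, s))) ^ 2 := by
          nlinarith [sq_nonneg (v (em (a, y)) - 2 * v (em (a, s)))]
        calc F1 (em (a, y)) ≤ ENNReal.ofReal (2 * v (em (a, s)) ^ 2 +
              2 * (v (em (a, y)) - v (em (a, s))) ^ 2) := ENNReal.ofReal_le_ofReal h3
          _ = 2 * F1 (em (a, s)) + 2 * ENNReal.ofReal ((v (em (a, y)) - v (em (a, s))) ^ 2) := by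
              rw [ENNReal.ofReal_add (by positivity) (by positivity),
                ENNReal.ofReal_mul (by norm_num), ENNReal.ofReal_mul (by norm_num)]
              simp [F1]
          _ ≤ 2 * F1 (em (a, s)) + 2 * (ENNReal.ofReal H * D) := by
              gcongr
              exact h1.trans (by gcongr)
          _ = 2 * F1 (em (a, s)) + ENNReal.ofReal (2 * H) * D := by
              have e1 : ENNReal.ofReal (2 * H) = 2 * ENNReal.ofReal H := by
                rw [ENNReal.ofReal_mul zero_le_two]; simp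
              rw [e1, mul_assoc]
      -- integrate over s
      have mL : AEMeasurable (fun t => F1 (em (a, t))) (volume.restrict (Ioo (z - h) z)) := by
        have h2 : ContinuousOn (fun t => v (em (a, t))) (Ioo (z - h) z) :=
          hv.continuousOn.comp (continuous_em.comp (Continuous.prodMk_right a)).continuousOn
            (fun t ht => hinU t ⟨ht.1, ht.2.trans_le hza⟩)
        exact ((h2.pow 2).aemeasurable measurableSet_Ioo).ennreal_ofReal
      have hvol : volume (Ioo (z - h) z) = ENNReal.ofReal h := by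
        rw [Real.volume_Ioo]
        congr 1
        ring
      have hint : ∀ y ∈ Ioo (z - h) (g a), ENNReal.ofReal h * F1 (em (a, y)) ≤
          2 * (∫⁻ s in Ioo (z - h) z, F1 (em (a, s))) +
            ENNReal.ofReal (2 * H) * D * ENNReal.ofReal h := by
        intro y hy
        calc ENNReal.ofReal h * F1 (em (a, y)) = ∫⁻ _s in Ioo (z - h) z, F1 (em (a, y)) := by
              rw [setLIntegral_const, hvol, mul_comm]
          _ ≤ ∫⁻ s in Ioo (z - h) z, (2 * F1 (em (a, s)) + ENNReal.ofReal (2 * H) * D) :=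
              setLIntegral_mono' measurableSet_Ioo fun s hs => hpt y hy s hs
          _ = 2 * (∫⁻ s in Ioo (z - h) z, F1 (em (a, s))) +
            ENNReal.ofReal (2 * H) * D * ENNReal.ofReal h := by
              rw [lintegral_add_left' (mL.const_mul _), lintegral_const_mul' _ _ (by simp),
                setLIntegral_const, hvol]
      -- integrate over y
      have hvolT : volume (Ioo (z - h) (g a)) ≤ ENNReal.ofReal H := by
        rw [Real.volume_Ioo]
        exact ENNReal.ofReal_le_ofReal hlen
      calc ENNReal.ofReal h * ∫⁻ t in Ioo (z - h) (g a), F1 (em (a, t)) =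
            ∫⁻ t in Ioo (z - h) (g a), ENNReal.ofReal h * F1 (em (a, t)) := by
              rw [lintegral_const_mul' _ _ (by simp)]
        _ ≤ ∫⁻ _t in Ioo (z - h) (g a), (2 * (∫⁻ s in Ioo (z - h) z, F1 (em (a, s))) +
            ENNReal.ofReal (2 * H) * D * ENNReal.ofReal h) :=
              setLIntegral_mono' measurableSet_Ioo fun y hy => hint y hy
        _ = (2 * (∫⁻ s in Ioo (z - h) z, F1 (em (a, s))) +
            ENNReal.ofReal (2 * H) * D * ENNReal.ofReal h) * volume (Ioo (z - h) (g a)) := by
              rw [setLIntegral_const]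
        _ ≤ (2 * (∫⁻ s in Ioo (z - h) z, F1 (em (a, s))) +
            ENNReal.ofReal (2 * H) * D * ENNReal.ofReal h) * ENNReal.ofReal H := by gcongr
        _ = ENNReal.ofReal (2 * H) * (∫⁻ s in Ioo (z - h) z, F1 (em (a, s))) +
            ENNReal.ofReal (2 * H ^ 2 * h) * D := by
              have e1 : ENNReal.ofReal (2 * H) = 2 * ENNReal.ofReal H := by
                rw [ENNReal.ofReal_mul (by norm_num)]; simp
              have e2 : ENNReal.ofReal (2 * H ^ 2 * h) =
                  2 * ENNReal.ofReal H * ENNReal.ofReal H * ENNReal.ofReal h := by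
                rw [show 2 * H ^ 2 * h = 2 * H * H * h by ring, ENNReal.ofReal_mul (by positivity),
                  ENNReal.ofReal_mul (by positivity), ENNReal.ofReal_mul (by norm_num)]
                simp
              rw [e1, e2]
              ring
    · have : ∀ t, (TopCell g L c h).indicator F1 (em (a, t)) = 0 := by
        intro t
        refine indicator_of_notMem (fun h' => ha ⟨?_, ?_⟩) _
        · have := h'.1
          rwa [em_0] at this
        · have := h'.2.1
          rwa [em_1] at this
      simp only [this, lintegral_zero, mul_zero]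
      exact zero_le
  -- integrate over the square
  have hmain : ENNReal.ofReal h * ∫⁻ x in TopCell g L c h, F1 x ≤
      ENNReal.ofReal (2 * H) * (∫⁻ x in LowCell g L c h, F1 x) +
      ENNReal.ofReal (2 * H ^ 2 * h) * ∫⁻ x in TopCell g L c h, F2 x := by
    rw [← lintegral_indicator hTo.measurableSet, ← lintegral_indicator hLo.measurableSet,
      ← lintegral_indicator hTo.measurableSet, lint_em mF1, lint_em mF1', lint_em mF2,
      ← lintegral_const_mul' _ _ ENNReal.ofReal_ne_top,
      ← lintegral_const_mul' _ _ ENNReal.ofReal_ne_top,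
      ← lintegral_const_mul' _ _ ENNReal.ofReal_ne_top,
      ← lintegral_add_left' ((aemeas_em mF1').const_mul _)]
    exact lintegral_mono hline
  -- back to real integrals
  have i1 : ∫⁻ x in TopCell g L c h, F1 x = ENNReal.ofReal (∫ x in TopCell g L c h, v x ^ 2) :=
    (ofReal_integral_eq_lintegral_ofReal hi1 (ae_of_all _ fun x => sq_nonneg _)).symm
  have i2 : ∫⁻ x in LowCell g L c h, F1 x = ENNReal.ofReal (∫ x in LowCell g L c h, v x ^ 2) :=
    (ofReal_integral_eq_lintegral_ofReal (hi1.mono_set hLT) (ae_of_all _ fun x => sq_nonneg _)).symm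
  have i3 : ∫⁻ x in TopCell g L c h, F2 x =
      ENNReal.ofReal (∫ x in TopCell g L c h, ‖gr v x‖ ^ 2) :=
    (ofReal_integral_eq_lintegral_ofReal hi2 (ae_of_all _ fun x => sq_nonneg _)).symm
  rw [i1, i2, i3] at hmain
  set A := ∫ x in TopCell g L c h, v x ^ 2 with hA
  set B := ∫ x in LowCell g L c h, v x ^ 2 with hB
  set G := ∫ x in TopCell g L c h, ‖gr v x‖ ^ 2 with hG
  have hA0 : 0 ≤ A := integral_nonneg fun x => sq_nonneg _
  have hB0 : 0 ≤ B := integral_nonneg fun x => sq_nonneg _
  have hG0 : 0 ≤ G := integral_nonneg fun x => sq_nonneg _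
  rw [← ENNReal.ofReal_mul hh.le, ← ENNReal.ofReal_mul (by positivity),
    ← ENNReal.ofReal_mul (by positivity), ← ENNReal.ofReal_add (by positivity) (by positivity),
    ENNReal.ofReal_le_ofReal_iff (by positivity)] at hmain
  have hGL : ∫ x in LowCell g L c h, ‖gr v x‖ ^ 2 ≤ G :=
    setIntegral_mono_set hi2 (ae_of_all _ fun x => sq_nonneg _) (ae_of_all _ hLT)
  have hBG : B ≤ 3 * h ^ 2 * G := hcube.trans (mul_le_mul_of_nonneg_left hGL (by positivity))
  -- h A ≤ 2 H B + 2 H² h G ≤ (6 H h² + 2 H² h) G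
  have h1 : h * A ≤ h * ((6 * H * h + 2 * H ^ 2) * G) := by
    have := mul_le_mul_of_nonneg_left hBG (by positivity : 0 ≤ 2 * H)
    nlinarith
  have h2 : A ≤ (6 * H * h + 2 * H ^ 2) * G := le_of_mul_le_mul_left h1 hh
  have h3 : 6 * H * h + 2 * H ^ 2 ≤ 20 * (1 + L) ^ 2 * h ^ 2 := by
    have h4 : H ≤ 3 / 2 * (1 + L) * h := by
      rw [hH]
      nlinarith
    have h5 : 6 * H * h ≤ 6 * H ^ 2 := by nlinarith
    have h6 : H ^ 2 ≤ (3 / 2 * (1 + L) * h) ^ 2 := pow_le_pow_left₀ hHpos.le h4 2
    have h7 : 0 ≤ (1 + (L:ℝ)) ^ 2 * h ^ 2 := by positivity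
    nlinarith
  exact h2.trans (mul_le_mul_of_nonneg_right h3 hG0)

end Pool.Agent.H14.IC
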